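import Pool.Agent.H86.TC.Seq

/-!
# `T`-characterized subgroups: annihilators of infinitely many independent characters of order `m`
-/

namespace Pool.Agent.H86.TC

open Filter Topology

/-- The character group of `X`: continuous homomorphisms to the circle `ℝ/ℤ`. -/
abbrev Dual (X : Type*) [AddCommGroup X] [TopologicalSpace X] : Type _ :=
  ContinuousAddMonoidHom X (AddCircle (1 : ℝ))

/-- `s_v(X)`: the points at which the sequence of characters `v` converges to `0`. -/
def sSet {X : Type*} [AddCommGroup X] [TopologicalSpace X] (v : ℕ → Dual X) : Set X :=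
  {x | Tendsto (fun n => v n x) atTop (𝓝 0)}

/-- `H` is `T`-characterized in `X`: `H = s_v(X)` for a `T`-sequence `v` of characters of `X`. -/
def TCharacterized {X : Type*} [AddCommGroup X] [TopologicalSpace X] (H : AddSubgroup X) : Prop :=
  ∃ v : ℕ → Dual X, IsTSeq v ∧ (H : Set X) = sSet v

/-- `H` is dually embedded in `Y`: every character of `H` extends to a character of `Y`. -/
def DuallyEmbedded {Y : Type*} [AddCommGroup Y] [TopologicalSpace Y] (H : AddSubgroup Y) : Prop :=
  ∀ χ : Dual H, ∃ ψ : Dual Y, ∀ h : H, ψ (h : Y) = χ h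

/-- evaluation at a point -/
def ev {X : Type*} [AddCommGroup X] [TopologicalSpace X] (x : X) : Dual X →+ AddCircle (1 : ℝ) where
  toFun χ := χ x
  map_zero' := rfl
  map_add' _ _ := rfl

theorem ev_apply {X : Type*} [AddCommGroup X] [TopologicalSpace X] (x : X) (χ : Dual X) :
    ev x χ = χ x := rfl

theorem nsmul_apply {X : Type*} [AddCommGroup X] [TopologicalSpace X] (m : ℕ) (w : Dual X)
    (x : X) : (m • w) x = m • w x := by
  rw [← ev_apply, map_nsmul, ev_apply]

theorem eventually_zero_of_tendsto {m : ℕ} (hm : 0 < m) {t : ℕ → AddCircle (1 : ℝ)}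
    (h1 : ∀ n, m • t n = 0) (h : Tendsto t atTop (𝓝 0)) : ∀ᶠ n in atTop, t n = 0 := by
  have hfin : {u : AddCircle (1 : ℝ) | m • u = 0}.Finite := AddCircle.finite_torsion (1 : ℝ) hm
  have h5 : IsClosed ({u : AddCircle (1 : ℝ) | m • u = 0} \ {0}) :=
    (hfin.subset Set.sdiff_subset).isClosed
  have h6 : ({u : AddCircle (1 : ℝ) | m • u = 0} \ {0})ᶜ ∈ 𝓝 (0 : AddCircle (1 : ℝ)) :=
    h5.isOpen_compl.mem_nhds (by simp)
  filter_upwards [h h6] with n hn
  by_contra h0
  exact hn ⟨h1 n, h0⟩

theorem IsTSeq.eventually_nsmul_eq_zero {G : Type*} [AddCommGroup G] {v : ℕ → G}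
    (hv : IsTSeq v) (m : ℕ) (S : Set G) (hS : S.Finite) (h : ∀ n, m • v n ∈ S) :
    ∀ᶠ n in atTop, m • v n = 0 := by
  obtain ⟨t, h1, h2, h3⟩ := hv
  let _ := t
  have := h1
  have := h2
  have h4 : Tendsto (fun n => m • v n) atTop (𝓝 0) := by
    have := (continuous_nsmul (M := G) m).tendsto 0
    rw [smul_zero] at this
    exact this.comp h3
  have h5 : IsClosed (S \ {0}) := (hS.subset Set.sdiff_subset).isClosed
  have h6 : (S \ {0})ᶜ ∈ 𝓝 (0 : G) := h5.isOpen_compl.mem_nhds (by simp)
  filter_upwards [h4 h6] with n hn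
  by_contra h0
  exact hn ⟨h n, h0⟩

theorem nsmul_finsupp (m : ℕ) (f : ℕ →₀ ZMod m) : m • f = 0 := by
  ext i
  simp

/-- a homomorphism to the circle which tends to `0` along the sequence `U` is trivial on the unit
vectors -/
theorem eq_zero_of_tendsto {m : ℕ} (hm : 0 < m) (x : (ℕ →₀ ZMod m) →+ AddCircle (1 : ℝ))
    (h : Tendsto (fun k => x (U m k)) atTop (𝓝 0)) (i : ℕ) : x (Finsupp.single i 1) = 0 := by
  have htor : ∀ f, m • x f = 0 := fun f => by rw [← map_nsmul, nsmul_finsupp, map_zero]
  have hev : ∀ᶠ k in atTop, x (U m k) = 0 := eventually_zero_of_tendsto hm (fun _ => htor _) h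
  obtain ⟨K, hK⟩ := eventually_atTop.mp hev
  have h1 : ∀ j, K ≤ j → x (Finsupp.single j 1) = 0 := fun j hj => by
    rw [← U_even]; exact hK _ (by omega)
  have h2 : ∀ n, K ≤ n → x (Finsupp.single (Nat.unpair n).1 1) = 0 := fun n hn => by
    have h3 := hK (2 * n + 1) (by omega)
    rw [U_odd, map_add, map_sum] at h3
    rw [Finset.sum_eq_zero, add_zero] at h3
    · exact h3
    · intro j hj
      have h4 := (Finset.mem_Ico.mp hj).1
      have h5 : n < 2 ^ n := Nat.lt_two_pow_self
      exact h1 j (by omega)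
  have h3 := h2 (Nat.pair i K) (Nat.right_le_pair i K)
  rwa [Nat.unpair_pair] at h3

section main

variable {X : Type*} [AddCommGroup X] [TopologicalSpace X] {m : ℕ}

/-- the homomorphism `ZMod m → G` with `1 ↦ g` -/
noncomputable def zhom {G : Type*} [AddCommGroup G] (m : ℕ) (g : G) (hg : m • g = 0) :
    ZMod m →+ G :=
  ZMod.lift m ⟨zmultiplesHom G g, by simpa [zmultiplesHom_apply] using hg⟩

theorem zhom_natCast {G : Type*} [AddCommGroup G] (m : ℕ) (g : G) (hg : m • g = 0) (k : ℕ) :
    zhom m g hg (k : ZMod m) = k • g := by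
  have : zhom m g hg (((k : ℤ)) : ZMod m) = k • g := by
    rw [zhom, ZMod.lift_coe]
    simp [zmultiplesHom_apply]
  simpa using this

theorem zhom_one {G : Type*} [AddCommGroup G] (m : ℕ) (g : G) (hg : m • g = 0) :
    zhom m g hg 1 = g := by
  have := zhom_natCast m g hg 1
  simpa using this

theorem zhom_val {G : Type*} [AddCommGroup G] (m : ℕ) [NeZero m] (g : G) (hg : m • g = 0)
    (a : ZMod m) : zhom m g hg a = a.val • g := by
  conv_lhs => rw [← ZMod.natCast_zmod_val a]
  exact zhom_natCast m g hg _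

/-- the annihilator of a sequence of independent characters of order `m` is `T`-characterized -/
theorem tCharacterized_of_dual (hm : 2 ≤ m) (d : ℕ → Dual X) (hd : ∀ j, m • d j = 0)
    (y : ℕ → X) (h0 : ∀ i j, i ≠ j → d j (y i) = 0) (h1 : ∀ j, addOrderOf (d j (y j)) = m)
    (H : AddSubgroup X) (hH : ∀ x, x ∈ H ↔ ∀ j, d j x = 0) : TCharacterized H := by
  have : NeZero m := ⟨by omega⟩
  let ι : (ℕ →₀ ZMod m) →+ Dual X := Finsupp.liftAddHom (fun j => zhom m (d j) (hd j))
  have hι1 : ∀ j, ι (Finsupp.single j 1) = d j := fun j => by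
    rw [Finsupp.liftAddHom_apply_single]
    exact zhom_one m _ _
  have hι : ∀ f, ι f = f.sum fun j a => zhom m (d j) (hd j) a := fun f => rfl
  have hinj : Function.Injective ι := by
    rw [injective_iff_map_eq_zero]
    intro f hf
    ext i
    have h2 : ev (y i) (ι f) = (f i).val • d i (y i) := by
      rw [hι, Finsupp.sum, map_sum, Finset.sum_eq_single i]
      · rw [zhom_val, map_nsmul, ev_apply]
      · intro j _ hj
        rw [zhom_val, map_nsmul, ev_apply, h0 i j hj.symm, smul_zero]
      · intro hi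
        rw [Finsupp.notMem_support_iff.mp hi, map_zero, map_zero]
    rw [hf, map_zero] at h2
    have h3 := addOrderOf_dvd_of_nsmul_eq_zero h2.symm
    rw [h1] at h3
    have h4 := Nat.eq_zero_of_dvd_of_lt h3 (ZMod.val_lt (f i))
    simpa using (ZMod.val_eq_zero (f i)).mp h4
  refine ⟨fun k => ι (U m k), isTSeq_U ι hinj, ?_⟩
  ext x
  change x ∈ H ↔ Tendsto (fun k => (ι (U m k)) x) atTop (𝓝 0)
  rw [hH]
  constructor
  · intro h
    have h2 : ∀ f, ι f x = 0 := by
      intro f
      rw [← ev_apply, hι, Finsupp.sum, map_sum]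
      refine Finset.sum_eq_zero fun j _ => ?_
      rw [zhom_val, map_nsmul, ev_apply, h j, smul_zero]
    simp only [h2]
    exact tendsto_const_nhds
  · intro h j
    have h2 := eq_zero_of_tendsto (by omega) ((ev x).comp ι) h j
    rw [AddMonoidHom.comp_apply, hι1, ev_apply] at h2
    exact h2

end main

end Pool.Agent.H86.TC
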