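import Mathlib

/-!
# `T`-sequences in abelian groups containing infinitely many independent elements of order `m`

A cost for the members of a sequence defines a group norm; if the norm separates points, the sequence
converges to `0` in a Hausdorff group topology.
-/

namespace Pool.Agent.H86.TC

open Filter Topology

/-- A `T`-sequence: some Hausdorff group topology makes the sequence converge to `0`. -/
def IsTSeq {G : Type*} [AddCommGroup G] (v : ℕ → G) : Prop :=
  ∃ t : TopologicalSpace G, @IsTopologicalAddGroup G t _ ∧ @T2Space G t ∧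
    Tendsto v atTop (@nhds G t 0)

section cost

variable {m : ℕ}

/-- the cost of a finitely supported function -/
noncomputable def cost (f : ℕ →₀ ZMod m) : ℝ := ∑ k ∈ f.support, 4 / ((k : ℝ) + 1)

theorem cost_nonneg (f : ℕ →₀ ZMod m) : 0 ≤ cost f :=
  Finset.sum_nonneg fun k _ => by positivity

theorem cost_zero : cost (0 : ℕ →₀ ZMod m) = 0 := by simp [cost]

theorem cost_neg (f : ℕ →₀ ZMod m) : cost (-f) = cost f := by
  simp [cost, Finsupp.support_neg]

theorem cost_add (f g : ℕ →₀ ZMod m) : cost (f + g) ≤ cost f + cost g := by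
  classical
  have h1 : cost (f + g) ≤ ∑ k ∈ f.support ∪ g.support, 4 / ((k : ℝ) + 1) :=
    Finset.sum_le_sum_of_subset_of_nonneg Finsupp.support_add fun k _ _ => by positivity
  have h2 := Finset.sum_union_inter (s₁ := f.support) (s₂ := g.support)
    (f := fun k : ℕ => 4 / ((k : ℝ) + 1))
  have h3 : 0 ≤ ∑ k ∈ f.support ∩ g.support, 4 / ((k : ℝ) + 1) :=
    Finset.sum_nonneg fun k _ => by positivity
  simp only [cost] at *
  linarith

theorem cost_single (k : ℕ) (a : ZMod m) : cost (Finsupp.single k a) ≤ 4 / ((k : ℝ) + 1) := by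
  have h1 : (Finsupp.single k a).support ⊆ {k} := Finsupp.support_single_subset
  have h2 : cost (Finsupp.single k a) ≤ ∑ k ∈ ({k} : Finset ℕ), 4 / ((k : ℝ) + 1) :=
    Finset.sum_le_sum_of_subset_of_nonneg h1 fun k _ _ => by positivity
  simpa using h2

theorem le_cost {f : ℕ →₀ ZMod m} {k : ℕ} (hk : f k ≠ 0) : 4 / ((k : ℝ) + 1) ≤ cost f := by
  have := Finset.single_le_sum (f := fun k : ℕ => 4 / ((k : ℝ) + 1)) (s := f.support)
    (fun k _ => by positivity) (Finsupp.mem_support_iff.mpr hk)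
  exact this

theorem sum_le_cost {f : ℕ →₀ ZMod m} (s : Finset ℕ) (hs : ∀ k ∈ s, f k ≠ 0) :
    ∑ k ∈ s, 4 / ((k : ℝ) + 1) ≤ cost f :=
  Finset.sum_le_sum_of_subset_of_nonneg (fun k hk => Finsupp.mem_support_iff.mpr (hs k hk))
    fun k _ _ => by positivity

variable {B : Type*} [AddCommGroup B] (Φ : (ℕ →₀ ZMod m) →+ B)

/-- the possible costs of an element of `B`, and `1` -/
def costs (b : B) : Set ℝ := {r | r = 1 ∨ ∃ f, Φ f = b ∧ r = cost f}

theorem costs_nonempty (b : B) : (costs Φ b).Nonempty := ⟨1, Or.inl rfl⟩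

theorem costs_nonneg {b : B} {r : ℝ} (hr : r ∈ costs Φ b) : 0 ≤ r := by
  rcases hr with rfl | ⟨f, _, rfl⟩
  · norm_num
  · exact cost_nonneg f

theorem costs_bdd (b : B) : BddBelow (costs Φ b) := ⟨0, fun _ hr => costs_nonneg Φ hr⟩

/-- the norm defined by the costs, for a homomorphism such that the cost of a representation of
a nonzero element is bounded from below -/
noncomputable def costNorm (h : ∀ b : B, b ≠ 0 → ∃ δ : ℝ, 0 < δ ∧ ∀ f, Φ f = b → δ ≤ cost f) :
    AddGroupNorm B where
  toFun b := sInf (costs Φ b)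
  map_zero' := by
    refine le_antisymm (csInf_le (costs_bdd Φ 0) (Or.inr ⟨0, map_zero Φ, cost_zero.symm⟩)) ?_
    exact le_csInf (costs_nonempty Φ 0) fun r hr => costs_nonneg Φ hr
  add_le' a b := by
    have h1 : ∀ r ∈ costs Φ a, ∀ r' ∈ costs Φ b, sInf (costs Φ (a + b)) ≤ r + r' := by
      intro r hr r' hr'
      have h0 := costs_nonneg Φ hr
      have h0' := costs_nonneg Φ hr'
      rcases hr with rfl | ⟨f, hf, rfl⟩
      · exact (csInf_le (costs_bdd Φ _) (Or.inl rfl)).trans (by linarith)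
      rcases hr' with rfl | ⟨g, hg, rfl⟩
      · exact (csInf_le (costs_bdd Φ _) (Or.inl rfl)).trans (by linarith)
      · refine (csInf_le (costs_bdd Φ _) (Or.inr ⟨f + g, ?_, rfl⟩)).trans (cost_add f g)
        rw [map_add, hf, hg]
    have h2 : ∀ r ∈ costs Φ a, sInf (costs Φ (a + b)) - r ≤ sInf (costs Φ b) := fun r hr =>
      le_csInf (costs_nonempty Φ b) fun r' hr' => by linarith [h1 r hr r' hr']
    have h3 : sInf (costs Φ (a + b)) - sInf (costs Φ b) ≤ sInf (costs Φ a) :=
      le_csInf (costs_nonempty Φ a) fun r hr => by linarith [h2 r hr]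
    linarith
  neg' a := by
    have : ∀ a : B, costs Φ (-a) ⊆ costs Φ a := by
      rintro a r (rfl | ⟨f, hf, rfl⟩)
      · exact Or.inl rfl
      · exact Or.inr ⟨-f, by rw [map_neg, hf, neg_neg], (cost_neg f).symm⟩
    congr 1
    refine Set.Subset.antisymm (this a) ?_
    have := this (-a)
    rwa [neg_neg] at this
  eq_zero_of_map_eq_zero' b hb := by
    by_contra hne
    obtain ⟨δ, hδ, hf⟩ := h b hne
    have h1 : min 1 δ ≤ sInf (costs Φ b) := by
      refine le_csInf (costs_nonempty Φ b) ?_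
      rintro r (rfl | ⟨f, hf', rfl⟩)
      · exact min_le_left _ _
      · exact (min_le_right _ _).trans (hf f hf')
    have h2 : 0 < min 1 δ := lt_min one_pos hδ
    have h3 : sInf (costs Φ b) = 0 := hb
    linarith

theorem isTSeq_of_cost (h : ∀ b : B, b ≠ 0 → ∃ δ : ℝ, 0 < δ ∧ ∀ f, Φ f = b → δ ≤ cost f) :
    IsTSeq (fun k => Φ (Finsupp.single k 1)) := by
  let _ := (costNorm Φ h).toNormedAddCommGroup
  refine ⟨inferInstance, inferInstance, inferInstance, ?_⟩
  have hlim : Tendsto (fun k : ℕ => 4 / ((k : ℝ) + 1)) atTop (𝓝 0) :=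
    (tendsto_natCast_atTop_atTop.atTop_add tendsto_const_nhds).const_div_atTop 4
  refine squeeze_zero_norm (fun k => ?_) hlim
  have h1 : ‖Φ (Finsupp.single k 1)‖ = sInf (costs Φ (Φ (Finsupp.single k 1))) := rfl
  rw [h1]
  exact (csInf_le (costs_bdd Φ _) (Or.inr ⟨_, rfl, rfl⟩)).trans (cost_single k 1)

end cost

/-! ### The sequence -/

/-- the sequence: the unit vectors, and between them each unit vector again and again, with a long
block of unit vectors added -/
noncomputable def U (m : ℕ) (k : ℕ) : ℕ →₀ ZMod m :=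
  if Even k then Finsupp.single (k / 2) 1
  else Finsupp.single (Nat.unpair (k / 2)).1 1 +
    ∑ j ∈ Finset.Ico (2 ^ (k / 2)) (2 ^ (k / 2 + 1)), Finsupp.single j 1

theorem U_even (m j : ℕ) : U m (2 * j) = Finsupp.single j 1 := by
  simp [U]

theorem U_odd (m n : ℕ) : U m (2 * n + 1) = Finsupp.single (Nat.unpair n).1 1 +
    ∑ j ∈ Finset.Ico (2 ^ n) (2 ^ (n + 1)), Finsupp.single j 1 := by
  have h1 : ¬ Even (2 * n + 1) := by simp
  have h2 : (2 * n + 1) / 2 = n := by omega
  simp [U, h2]

theorem U_even_apply (m j i : ℕ) : U m (2 * j) i = if j = i then 1 else 0 := by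
  classical
  rw [U_even, Finsupp.single_apply]

theorem U_odd_apply (m n i : ℕ) : U m (2 * n + 1) i =
    (if (Nat.unpair n).1 = i then 1 else 0) + (if i ∈ Finset.Ico (2 ^ n) (2 ^ (n + 1)) then 1 else 0) := by
  classical
  rw [U_odd, Finsupp.add_apply, Finsupp.single_apply, Finsupp.finsetSum_apply]
  congr 1
  simp only [Finsupp.single_apply]
  rw [Finset.sum_ite_eq']

/-- the homomorphism defined by the sequence -/
noncomputable def Psi (m : ℕ) : (ℕ →₀ ZMod m) →+ (ℕ →₀ ZMod m) :=
  (Finsupp.linearCombination (ZMod m) (U m)).toAddMonoidHom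

theorem Psi_apply (m : ℕ) (f : ℕ →₀ ZMod m) (j : ℕ) :
    Psi m f j = f.sum fun k a => a * U m k j := by
  change (Finsupp.linearCombination (ZMod m) (U m) f) j = _
  rw [Finsupp.linearCombination_apply, Finsupp.sum, Finsupp.finsetSum_apply]
  rfl

theorem Psi_single (m k : ℕ) : Psi m (Finsupp.single k 1) = U m k := by
  change Finsupp.linearCombination (ZMod m) (U m) (Finsupp.single k 1) = _
  simp

theorem Psi_apply_of_no_odd {m : ℕ} (f : ℕ →₀ ZMod m) (hf : ∀ n, f (2 * n + 1) = 0) (j : ℕ) :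
    Psi m f j = f (2 * j) := by
  classical
  rw [Psi_apply, Finsupp.sum_of_support_subset f (s := insert (2 * j) f.support)
    (Finset.subset_insert _ _) _ (by simp)]
  rw [Finset.sum_eq_single_of_mem (2 * j) (Finset.mem_insert_self _ _)]
  · rw [U_even_apply]; simp
  · intro k _ hk
    rcases Nat.even_or_odd' k with ⟨i, rfl | rfl⟩
    · rw [U_even_apply, if_neg (by omega), mul_zero]
    · rw [hf, zero_mul]

theorem Psi_apply_block {m : ℕ} (f : ℕ →₀ ZMod m) (n : ℕ) (hf : ∀ n', n < n' → f (2 * n' + 1) = 0)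
    (j : ℕ) (hj : j ∈ Finset.Ico (2 ^ n) (2 ^ (n + 1))) :
    Psi m f j = f (2 * j) + f (2 * n + 1) := by
  classical
  rw [Finset.mem_Ico] at hj
  have hn : ∀ n : ℕ, n < 2 ^ n := fun n => Nat.lt_two_pow_self
  rw [Psi_apply, Finsupp.sum_of_support_subset f (s := insert (2 * j) (insert (2 * n + 1) f.support))
    (by intro x hx; simp [hx]) _ (by simp)]
  rw [Finset.sum_eq_add_of_mem (2 * j) (2 * n + 1) (by simp) (by simp) (by omega)]
  · have h1 : (Nat.unpair n).1 ≠ j := by
      have := Nat.unpair_left_le n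
      have := hn n
      omega
    rw [U_even_apply, U_odd_apply, if_pos rfl, if_neg h1, if_pos (Finset.mem_Ico.mpr hj)]
    simp
  · rintro k _ ⟨hk1, hk2⟩
    rcases Nat.even_or_odd' k with ⟨i, rfl | rfl⟩
    · rw [U_even_apply, if_neg (by omega), mul_zero]
    · rcases lt_trichotomy i n with h | h | h
      · have h1 : (Nat.unpair i).1 ≠ j := by
          have := Nat.unpair_left_le i
          have := hn n
          omega
        have h2 : j ∉ Finset.Ico (2 ^ i) (2 ^ (i + 1)) := by
          rw [Finset.mem_Ico]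
          have : 2 ^ (i + 1) ≤ 2 ^ n := Nat.pow_le_pow_right (by norm_num) h
          omega
        rw [U_odd_apply, if_neg h1, if_neg h2]
        simp
      · omega
      · rw [hf i h, zero_mul]

theorem block_sum (n : ℕ) :
    1 ≤ ∑ k ∈ ((Finset.Ico (2 ^ n) (2 ^ (n + 1)) : Finset ℕ).image (fun j : ℕ => 2 * j)),
      4 / ((k : ℝ) + 1) := by
  classical
  rw [Finset.sum_image (by intro a _ b _ h; simpa using h)]
  have h1 : ∀ j ∈ (Finset.Ico (2 ^ n) (2 ^ (n + 1)) : Finset ℕ), 1 / (2 ^ n : ℝ) ≤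
      4 / (((2 * j : ℕ) : ℝ) + 1) := by
    intro j hj
    rw [Finset.mem_Ico] at hj
    rw [div_le_div_iff₀ (by positivity) (by positivity)]
    have h2 : j + 1 ≤ 2 * 2 ^ n := by
      have := hj.2
      rw [pow_succ] at this
      omega
    have h3 : (j : ℝ) + 1 ≤ 2 * 2 ^ n := by exact_mod_cast h2
    push_cast
    linarith
  have h2 := Finset.sum_le_sum h1
  have h3 : 2 ^ (n + 1) - 2 ^ n = 2 ^ n := by rw [pow_succ]; omega
  rw [Finset.sum_const, Nat.card_Ico, h3, nsmul_eq_mul] at h2
  have h4 : ((2 ^ n : ℕ) : ℝ) * (1 / 2 ^ n) = 1 := by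
    push_cast
    field_simp
  rw [h4] at h2
  exact h2

/-- the main estimate -/
theorem le_cost_of_Psi {m : ℕ} (G : ℕ →₀ ZMod m) (hG : G ≠ 0) :
    ∃ δ : ℝ, 0 < δ ∧ ∀ f, Psi m f = G → δ ≤ cost f := by
  classical
  obtain ⟨M, hM⟩ : ∃ M : ℕ, ∀ j, G j ≠ 0 → j ≤ M := by
    obtain ⟨M, hM⟩ := G.support.finite_toSet.bddAbove
    exact ⟨M, fun j hj => hM (Finset.mem_coe.mpr (Finsupp.mem_support_iff.mpr hj))⟩
  obtain ⟨j₀, hj₀⟩ : ∃ j, G j ≠ 0 := by
    by_contra h
    push Not at h
    exact hG (Finsupp.ext h)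
  have hM1 : (0 : ℝ) < (M : ℝ) + 1 := by positivity
  refine ⟨1 / ((M : ℝ) + 1), by positivity, fun f hf => ?_⟩
  by_cases hodd : ∀ n, f (2 * n + 1) = 0
  · have h1 : f (2 * j₀) ≠ 0 := by
      rw [← Psi_apply_of_no_odd f hodd, hf]; exact hj₀
    refine le_trans ?_ (le_cost h1)
    have h2 : (j₀ : ℝ) ≤ M := by exact_mod_cast hM j₀ hj₀
    rw [div_le_div_iff₀ hM1 (by positivity)]
    push_cast
    linarith
  · push Not at hodd
    have hfin : {n | f (2 * n + 1) ≠ 0}.Finite := by
      refine (f.support.finite_toSet.preimage (f := fun n : ℕ => 2 * n + 1) ?_).subset ?_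
      · intro a _ b _ h; simpa using h
      · intro n hn
        exact Finset.mem_coe.mpr (Finsupp.mem_support_iff.mpr hn)
    obtain ⟨n, hn, hmax⟩ := Set.exists_max_image _ id hfin hodd
    have hmax' : ∀ n', n < n' → f (2 * n' + 1) = 0 := by
      intro n' hn'
      by_contra h
      exact absurd (hmax n' h) (not_le.mpr hn')
    by_cases hnM : n ≤ M
    · refine le_trans ?_ (le_cost hn)
      have h2 : (n : ℝ) ≤ M := by exact_mod_cast hnM
      rw [div_le_div_iff₀ hM1 (by positivity)]
      push_cast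
      linarith
    · have h1 : ∀ k ∈ (Finset.Ico (2 ^ n) (2 ^ (n + 1))).image (fun j => 2 * j), f k ≠ 0 := by
        intro k hk
        obtain ⟨j, hj, rfl⟩ := Finset.mem_image.mp hk
        have h2 := Psi_apply_block f n hmax' j hj
        have h3 : G j = 0 := by
          by_contra h
          have h4 := hM j h
          have h5 := (Finset.mem_Ico.mp hj).1
          have h6 : n < 2 ^ n := Nat.lt_two_pow_self
          omega
        rw [hf, h3] at h2
        intro h4
        rw [h4, zero_add] at h2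
        exact hn h2.symm
      refine le_trans ?_ ((block_sum n).trans (sum_le_cost _ h1))
      rw [div_le_one hM1]
      linarith [(Nat.cast_nonneg M : (0 : ℝ) ≤ M)]

/-- the sequence is a `T`-sequence in every abelian group in which the group of the finitely
supported functions embeds -/
theorem isTSeq_U {m : ℕ} {B : Type*} [AddCommGroup B] (ι : (ℕ →₀ ZMod m) →+ B)
    (hι : Function.Injective ι) : IsTSeq (fun k => ι (U m k)) := by
  have h := isTSeq_of_cost (ι.comp (Psi m)) (fun b hb => ?_)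
  · simpa only [AddMonoidHom.comp_apply, Psi_single] using h
  · by_cases hb' : ∃ G, ι G = b
    · obtain ⟨G, rfl⟩ := hb'
      obtain ⟨δ, hδ, hf⟩ := le_cost_of_Psi G (fun h => hb (by rw [h, map_zero]))
      exact ⟨δ, hδ, fun f hf' => hf f (hι hf')⟩
    · exact ⟨1, one_pos, fun f hf => absurd ⟨_, hf⟩ hb'⟩

end Pool.Agent.H86.TC
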